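import Pool.Agent.W566.MZ.Stmts
import Pool.Agent.TeamU.B0
import Pool.Agent.TeamU.B1
import Pool.Agent.TeamU.B2

/-!
# MP_aa8fd2_nt, part K4: the Kummer/Dirichlet lower bound
-/

set_option autoImplicit false

namespace Pool.Agent.W368.MZK4

open NumberField IsDedekindDomain MZ Pool.Agent.TeamU

section FieldPart

variable {L Ω : Type} [Field L] [Field Ω] [Algebra L Ω]

theorem kumClosed_Linf : KumClosed (Linf L Ω) := by
  intro x y hx hT hy
  rw [Linf, IntermediateField.mem_sInf] at hx ⊢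
  intro M hM
  exact hM x y (hx M hM) hT hy

theorem twoUnit_map (σ : Ω →+* Ω) {x : Ω} (h : TwoUnit x) : TwoUnit (σ x) := by
  obtain ⟨h0, n, h1, h2⟩ := h
  refine ⟨(map_ne_zero σ).2 h0, n, ?_, ?_⟩
  · have := h1.map σ.toIntAlgHom
    rw [map_mul, map_pow] at this
    change IsIntegral ℤ (σ 2 ^ n * σ x) at this
    rwa [map_ofNat] at this
  · have := h2.map σ.toIntAlgHom
    rw [map_mul, map_pow] at this
    change IsIntegral ℤ (σ 2 ^ n * σ x⁻¹) at this
    rwa [map_ofNat, map_inv₀] at this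

theorem isGalois_Linf (L Ω : Type) [Field L] [CharZero L] [Field Ω] [Algebra L Ω]
    [IsAlgClosure L Ω] : IsGalois L (Linf L Ω) := by
  have h1 : Algebra.IsAlgebraic L Ω := IsAlgClosure.isAlgebraic
  have h2 : IsAlgClosed Ω := IsAlgClosure.isAlgClosed L
  have hN : Normal L (Linf L Ω) := by
    rw [IntermediateField.normal_iff_forall_map_le]
    intro σ
    rw [IntermediateField.map_le_iff_le_comap]
    refine sInf_le ?_
    intro x y hx hT hy
    exact kumClosed_Linf (σ x) (σ y) hx (twoUnit_map (σ : Ω →+* Ω) hT) (by rw [← map_pow, hy])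
  exact ⟨⟩

end FieldPart

section Chars

variable {L E : Type} [Field L] [Field E] [Algebra L E]

theorem two_el : ∀ a b : Multiplicative (ZMod 2), a ≠ 1 → b ≠ 1 → a = b := by decide

theorem two_mul' : ∀ a b : Multiplicative (ZMod 2), a ≠ 1 → b ≠ 1 → a * b = 1 := by decide

/-- the quadratic character of `y`, where `y ^ 2` is fixed by `N` -/
noncomputable def chi [CharZero E] (N : Subgroup Gal(E/L)) (y : E) (h0 : y ≠ 0)
    (hy : ∀ g ∈ N, g y = y ∨ g y = -y) : N →* Multiplicative (ZMod 2) := by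
  classical
  exact
  { toFun := fun g => if (g : Gal(E/L)) y = y then 1 else Multiplicative.ofAdd 1
    map_one' := by simp
    map_mul' := by
      intro g h
      have hne : y ≠ -y := fun hh => h0 (self_eq_neg.1 hh)
      have e : ((g * h : N) : Gal(E/L)) y = (g : Gal(E/L)) ((h : Gal(E/L)) y) := rfl
      rw [e]
      rcases hy g g.2 with hg | hg <;> rcases hy h h.2 with hh | hh
      · rw [hh, hg]
        simp
      · rw [hh, map_neg, hg, if_neg (Ne.symm hne), if_pos rfl, one_mul]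
      · rw [hh, hg, if_neg (Ne.symm hne), if_pos rfl, mul_one]
      · rw [hh, map_neg, hg, neg_neg, if_pos rfl, if_neg (Ne.symm hne)]
        decide }

theorem chi_eq_one_iff [CharZero E] (N : Subgroup Gal(E/L)) (y : E) (h0 : y ≠ 0)
    (hy : ∀ g ∈ N, g y = y ∨ g y = -y) (g : N) :
    chi N y h0 hy g = 1 ↔ (g : Gal(E/L)) y = y := by
  classical
  change (if (g : Gal(E/L)) y = y then (1 : Multiplicative (ZMod 2)) else Multiplicative.ofAdd 1) = 1
    ↔ _
  split_ifs with h
  · simp [h]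
  · simp only [h, iff_false]
    decide

theorem chi_open [CharZero E] [Algebra.IsAlgebraic L E] (N : Subgroup Gal(E/L)) (y : E)
    (h0 : y ≠ 0) (hy : ∀ g ∈ N, g y = y ∨ g y = -y) :
    IsOpen ((chi N y h0 hy).ker : Set N) := by
  have hf : FiniteDimensional L (IntermediateField.adjoin L {y}) :=
    IntermediateField.adjoin.finiteDimensional (Algebra.IsIntegral.isIntegral y)
  have h1 : IsOpen ((Subtype.val : N → Gal(E/L)) ⁻¹'
      ((IntermediateField.adjoin L {y}).fixingSubgroup : Set Gal(E/L))) :=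
    (IntermediateField.fixingSubgroup_isOpen _).preimage continuous_subtype_val
  have e : (((IntermediateField.adjoin L {y}).fixingSubgroup).comap N.subtype) ≤
      (chi N y h0 hy).ker := by
    intro g hg
    rw [MonoidHom.mem_ker, chi_eq_one_iff]
    have hg' : (g : Gal(E/L)) ∈ (IntermediateField.adjoin L {y}).fixingSubgroup := hg
    rw [IntermediateField.mem_fixingSubgroup_iff] at hg'
    exact hg' y (IntermediateField.mem_adjoin_simple_self L y)
  exact Subgroup.isOpen_mono e h1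

/-- every quadratic character of an open subgroup comes from a Kummer generator -/
theorem exists_y [IsGalois L E] (N : Subgroup Gal(E/L)) (hN : IsOpen (N : Set Gal(E/L)))
    (χ : N →* Multiplicative (ZMod 2)) (hχ : IsOpen (χ.ker : Set N)) :
    ∃ y : E, y ≠ 0 ∧ ∀ g : N, (χ g = 1 → (g : Gal(E/L)) y = y) ∧
      (χ g ≠ 1 → (g : Gal(E/L)) y = -y) := by
  by_cases h1 : ∀ g, χ g = 1
  · exact ⟨1, one_ne_zero, fun g => ⟨fun _ => map_one _, fun h => absurd (h1 g) h⟩⟩
  push Not at h1
  obtain ⟨g0, hg0⟩ := h1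
  have hHo : IsOpen ((χ.ker.map N.subtype : Subgroup Gal(E/L)) : Set Gal(E/L)) := by
    have : ((χ.ker.map N.subtype : Subgroup Gal(E/L)) : Set Gal(E/L)) =
        Subtype.val '' (χ.ker : Set N) := rfl
    rw [this]
    exact hN.isOpenMap_subtype_val _ hχ
  have hHc : IsClosed ((χ.ker.map N.subtype : Subgroup Gal(E/L)) : Set Gal(E/L)) :=
    Subgroup.isClosed_of_isOpen _ hHo
  have hfix := InfiniteGalois.fixingSubgroup_fixedField
    (⟨χ.ker.map N.subtype, hHc⟩ : ClosedSubgroup Gal(E/L))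
  have hg0' : (g0 : Gal(E/L)) ∉
      (IntermediateField.fixedField (χ.ker.map N.subtype)).fixingSubgroup := by
    intro h
    have h2 : (g0 : Gal(E/L)) ∈ χ.ker.map N.subtype := by
      have h3 := hfix
      simp only at h3
      rw [← h3]
      exact h
    obtain ⟨k, hk, hk'⟩ := h2
    have : k = g0 := Subtype.ext hk'
    rw [this] at hk
    exact hg0 hk
  rw [IntermediateField.mem_fixingSubgroup_iff] at hg0'
  push Not at hg0'
  obtain ⟨z, hz, hz'⟩ := hg0'
  have hker : ∀ h : N, χ h = 1 → (h : Gal(E/L)) z = z := by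
    intro h hh
    rw [IntermediateField.mem_fixedField_iff] at hz
    exact hz h ⟨h, hh, rfl⟩
  have hcase : ∀ g : N, χ g ≠ 1 → (g : Gal(E/L)) z = (g0 : Gal(E/L)) z ∧
      (g : Gal(E/L)) ((g0 : Gal(E/L)) z) = z := by
    intro g hg
    constructor
    · have h2 : χ (g0⁻¹ * g) = 1 := by
        rw [map_mul, map_inv, two_el _ _ hg hg0, inv_mul_cancel]
      have h3 := hker _ h2
      have h4 : (g : Gal(E/L)) = (g0 : Gal(E/L)) * ((g0⁻¹ * g : N) : Gal(E/L)) := by
        simp
      rw [h4, AlgEquiv.mul_apply, h3]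
    · have h2 : χ (g * g0) = 1 := by
        rw [map_mul, two_mul' _ _ hg hg0]
      exact hker _ h2
  refine ⟨z - (g0 : Gal(E/L)) z, sub_ne_zero.2 (Ne.symm hz'), fun g => ⟨fun hg => ?_, fun hg => ?_⟩⟩
  · rw [map_sub, hker g hg]
    have h2 : χ (g * g0) ≠ 1 := by
      rw [map_mul, hg, one_mul]
      exact hg0
    have h3 := (hcase _ h2).1
    have h4 : ((g * g0 : N) : Gal(E/L)) z = (g : Gal(E/L)) ((g0 : Gal(E/L)) z) := rfl
    rw [h4] at h3
    rw [h3]
  · rw [map_sub, (hcase g hg).1, (hcase g hg).2]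
    ring

end Chars

section NumberPart

variable (M : Type) [Field M] [NumberField M]

theorem finite_above_two : {v : HeightOneSpectrum (𝓞 M) | (2 : 𝓞 M) ∈ v.asIdeal}.Finite := by
  refine (finite_valuation_ne_one (2 : M) two_ne_zero).subset ?_
  intro v hv
  have h2 : v.valuation M (algebraMap (𝓞 M) M 2) < 1 :=
    (HeightOneSpectrum.valuation_lt_one_iff_mem v 2).2 hv
  rw [map_ofNat] at h2
  exact h2.ne

/-- the primes above 2 -/
noncomputable def S2 : Finset (HeightOneSpectrum (𝓞 M)) := (finite_above_two M).toFinset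

variable {M}

theorem mem_S2 {v : HeightOneSpectrum (𝓞 M)} : v ∈ S2 M ↔ (2 : 𝓞 M) ∈ v.asIdeal := by
  rw [S2, Set.Finite.mem_toFinset]
  rfl

theorem two_not_unit : ¬ IsUnit (2 : 𝓞 M) := by
  intro h
  obtain ⟨x, hx⟩ := h.exists_right_inv
  have h1 : (2 : M) * (x : M) = 1 := by
    have := congrArg (algebraMap (𝓞 M) M) hx
    rw [map_mul, map_ofNat, map_one] at this
    exact this
  have h2 : (x : M) = algebraMap ℚ M (1 / 2) := by
    rw [map_div₀, map_one, map_ofNat]
    field_simp
    linear_combination h1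
  have h3 : IsIntegral ℤ (x : M) := x.isIntegral_coe
  rw [h2, isIntegral_algebraMap_iff (FaithfulSMul.algebraMap_injective ℚ M)] at h3
  obtain ⟨y, hy⟩ := IsIntegrallyClosed.isIntegral_iff.1 h3
  have h4 : (y : ℚ) = 1 / 2 := hy
  have h5 : (2 * y : ℤ) = 1 := by
    have : ((2 * y : ℤ) : ℚ) = 1 := by
      push_cast
      rw [h4]
      norm_num
    exact_mod_cast this
  omega

theorem S2_nonempty : (S2 M).Nonempty := by
  obtain ⟨I, hI, hI2⟩ := exists_max_ideal_of_mem_nonunits (a := (2 : 𝓞 M)) two_not_unit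
  refine ⟨⟨I, hI.isPrime, ?_⟩, mem_S2.2 hI2⟩
  rintro rfl
  exact two_ne_zero (Ideal.mem_bot.1 hI2)

theorem finite_ker (S : Finset (HeightOneSpectrum (𝓞 M))) :
    Finite (powMonoidHom 2 : SU S →* SU S).ker := by
  have h : ∀ x : (powMonoidHom 2 : SU S →* SU S).ker, ((x : SU S) : Mˣ) ∈ rootsOfUnity 2 M := by
    intro x
    rw [mem_rootsOfUnity]
    have := x.2
    rw [MonoidHom.mem_ker] at this
    exact congrArg Subtype.val this
  refine Finite.of_injective (fun x => (⟨_, h x⟩ : rootsOfUnity 2 M)) ?_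
  intro x y hxy
  have := congrArg Subtype.val hxy
  exact Subtype.ext (Subtype.ext this)

/-- Dirichlet lower bound -/
theorem card_ge : 2 ^ (Nat.card (InfinitePlace M) + 1) ≤
    (powMonoidHom 2 : SU (S2 M) →* SU (S2 M)).range.index := by
  have := su_fg (S2 M)
  rw [index_sq, su_rank, Units.rank]
  have h1 : 0 < Fintype.card (InfinitePlace M) := Fintype.card_pos
  have h2 : 0 < (S2 M).card := Finset.card_pos.2 S2_nonempty
  have h3 : 2 ≤ Nat.card (powMonoidHom 2 : SU (S2 M) →* SU (S2 M)).ker := by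
    have := finite_ker (S2 M)
    have hm : (-1 : Mˣ) ∈ SU (S2 M) := by
      intro v _
      rw [Units.val_neg, Units.val_one, Valuation.map_neg, map_one]
    have hk : (⟨-1, hm⟩ : SU (S2 M)) ∈ (powMonoidHom 2 : SU (S2 M) →* SU (S2 M)).ker := by
      rw [MonoidHom.mem_ker]
      apply Subtype.ext
      change (-1 : Mˣ) ^ 2 = 1
      simp
    have hnt : Nontrivial (powMonoidHom 2 : SU (S2 M) →* SU (S2 M)).ker := by
      refine ⟨⟨1, ⟨_, hk⟩, ?_⟩⟩
      intro h
      have h5 := congrArg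
        (fun z : (powMonoidHom 2 : SU (S2 M) →* SU (S2 M)).ker => ((z : SU (S2 M)) : Mˣ)) h
      change (1 : Mˣ) = -1 at h5
      have h6 : (1 : M) = -1 := congrArg Units.val h5
      norm_num at h6
    exact Finite.one_lt_card_iff_nontrivial.2 hnt
  rw [Nat.card_eq_fintype_card]
  calc 2 ^ (Fintype.card (InfinitePlace M) + 1)
      ≤ 2 ^ (Fintype.card (InfinitePlace M) - 1 + (S2 M).card + 1) :=
        Nat.pow_le_pow_right (by norm_num) (by omega)
    _ = 2 ^ (Fintype.card (InfinitePlace M) - 1 + (S2 M).card) * 2 := pow_succ _ _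
    _ ≤ _ := Nat.mul_le_mul_left _ h3

theorem index_ne_zero (S : Finset (HeightOneSpectrum (𝓞 M))) :
    (powMonoidHom 2 : SU S →* SU S).range.index ≠ 0 := by
  have := su_fg S
  have := finite_ker S
  rw [index_sq]
  exact mul_ne_zero (by positivity) Nat.card_pos.ne'

theorem val_two_le {v : HeightOneSpectrum (𝓞 M)} (hv : (2 : 𝓞 M) ∈ v.asIdeal) (x : M) :
    ∃ n : ℕ, v.valuation M (2 ^ n * x) ≤ 1 := by
  have h2 : v.valuation M (2 : M) < 1 := by
    have := (HeightOneSpectrum.valuation_lt_one_iff_mem (K := M) v 2).2 hv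
    change v.valuation M (algebraMap (𝓞 M) M 2) < 1 at this
    rwa [map_ofNat] at this
  by_cases hx : x = 0
  · exact ⟨0, by simp [hx]⟩
  have hx' : v.valuation M x ≠ 0 := (Valuation.ne_zero_iff _).2 hx
  have h2' : v.valuation M (2 : M) ≠ 0 := (Valuation.ne_zero_iff _).2 two_ne_zero
  refine ⟨(WithZero.log (v.valuation M x)).toNat, ?_⟩
  rw [map_mul, map_pow, ← WithZero.exp_log hx', ← WithZero.exp_log h2', WithZero.log_exp,
    ← WithZero.exp_nsmul, ← WithZero.exp_add, ← WithZero.exp_zero, WithZero.exp_le_exp]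
  have h3 : WithZero.log (v.valuation M (2 : M)) < 0 := by
    rw [← WithZero.exp_log h2', ← WithZero.exp_zero, WithZero.exp_lt_exp] at h2
    exact h2
  set k := WithZero.log (v.valuation M x)
  set j := WithZero.log (v.valuation M (2 : M))
  rw [nsmul_eq_mul]
  have h4 : k ≤ (k.toNat : ℤ) := Int.self_le_toNat k
  have h5 : (0 : ℤ) ≤ (k.toNat : ℤ) := Int.natCast_nonneg _
  nlinarith

theorem exists_int (x : M) (hx : ∀ v, v ∉ S2 M → v.valuation M x ≤ 1) :
    ∃ n0 : ℕ, ∀ n, n0 ≤ n → IsIntegral ℤ (2 ^ n * x) := by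
  classical
  have h1 : ∀ v : HeightOneSpectrum (𝓞 M), ∃ n : ℕ, v ∈ S2 M → v.valuation M (2 ^ n * x) ≤ 1 := by
    intro v
    by_cases hv : v ∈ S2 M
    · obtain ⟨n, hn⟩ := val_two_le (mem_S2.1 hv) x
      exact ⟨n, fun _ => hn⟩
    · exact ⟨0, fun h => absurd h hv⟩
  choose f hf using h1
  have hle : ∀ v : HeightOneSpectrum (𝓞 M), v.valuation M (2 : M) ≤ 1 := by
    intro v
    have := v.valuation_le_one (K := M) 2
    change v.valuation M (algebraMap (𝓞 M) M 2) ≤ 1 at this
    rwa [map_ofNat] at this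
  refine ⟨(S2 M).sup f, fun n hn => ?_⟩
  have h2 : ∀ v : HeightOneSpectrum (𝓞 M), v.valuation M (2 ^ n * x) ≤ 1 := by
    intro v
    by_cases hv : v ∈ S2 M
    · have h3 : f v ≤ n := le_trans (Finset.le_sup hv) hn
      have h4 : (2 : M) ^ n * x = 2 ^ (n - f v) * (2 ^ (f v) * x) := by
        rw [← mul_assoc, ← pow_add]
        congr 2
        omega
      rw [h4, map_mul, map_pow]
      exact mul_le_one' (pow_le_one' (hle v) _) (hf v hv)
    · rw [map_mul, map_pow]
      exact mul_le_one' (pow_le_one' (hle v) _) (hx v hv)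
  obtain ⟨y, hy⟩ := HeightOneSpectrum.mem_integers_of_valuation_le_one M _ h2
  rw [← hy]
  exact y.isIntegral_coe

theorem twoUnit_of_SU {Ω : Type} [Field Ω] [Algebra M Ω] (u : Mˣ) (hu : u ∈ SU (S2 M)) :
    TwoUnit (algebraMap M Ω (u : M)) := by
  obtain ⟨n1, h1⟩ := exists_int (u : M) (fun v hv => (hu v hv).le)
  obtain ⟨n2, h2⟩ := exists_int ((u : M)⁻¹) (fun v hv => by rw [map_inv₀, hu v hv, inv_one])
  refine ⟨(map_ne_zero _).2 u.ne_zero, max n1 n2, ?_, ?_⟩
  · have h3 := (h1 (max n1 n2) (le_max_left _ _)).map (algebraMap M Ω).toIntAlgHom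
    rw [map_mul, map_pow] at h3
    change IsIntegral ℤ (algebraMap M Ω 2 ^ _ * algebraMap M Ω (u : M)) at h3
    rwa [map_ofNat] at h3
  · have h3 := (h2 (max n1 n2) (le_max_right _ _)).map (algebraMap M Ω).toIntAlgHom
    rw [map_mul, map_pow] at h3
    change IsIntegral ℤ (algebraMap M Ω 2 ^ _ * algebraMap M Ω (u : M)⁻¹) at h3
    rwa [map_ofNat, map_inv₀] at h3

theorem exists_decomp (T : Finset (HeightOneSpectrum (𝓞 M))) (hT : ClTriv T) (hT2 : S2 M ⊆ T)
    (a : M) (ha : a ≠ 0) (hev : MZ294.EvenOut2 M a) :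
    ∃ (b : Mˣ) (u : Mˣ), u ∈ SU T ∧ a = b ^ 2 * u := by
  have h1 : ∀ v : HeightOneSpectrum (𝓞 M), v ∉ T →
      v.valuation M a = WithZero.exp (WithZero.log (v.valuation M a) / 2) ^ 2 := by
    intro v hv
    have h2 : (2 : 𝓞 M) ∉ v.asIdeal := fun h => hv (hT2 (mem_S2.2 h))
    obtain ⟨r, hr⟩ := hev v h2
    have hva : v.valuation M a ≠ 0 := (Valuation.ne_zero_iff _).2 ha
    have hr0 : r ≠ 0 := by
      rintro rfl
      rw [zero_mul] at hr
      exact hva hr
    rw [hr, WithZero.log_mul hr0 hr0, ← two_mul, Int.mul_ediv_cancel_left _ two_ne_zero,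
      WithZero.exp_log hr0, sq]
  obtain ⟨α, hα⟩ := exists_of_clTriv hT (fun v => WithZero.log (v.valuation M a) / 2) (by
    refine (finite_valuation_ne_one a ha).subset ?_
    rintro v ⟨_, hv⟩
    change v.valuation M a ≠ 1
    intro h
    apply hv
    have h0 : WithZero.log (v.valuation M a) / 2 = 0 := by
      rw [h, WithZero.log_one]
      rfl
    exact h0)
  refine ⟨α, (Units.mk0 a ha) / α ^ 2, ?_, ?_⟩
  · intro v hv
    rw [Units.val_div_eq_div_val, Units.val_pow_eq_pow_val, Units.val_mk0, map_div₀, map_pow,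
      hα v hv, ← h1 v hv]
    exact div_self ((Valuation.ne_zero_iff _).2 ha)
  · rw [Units.val_div_eq_div_val, Units.val_pow_eq_pow_val, Units.val_mk0]
    field_simp

end NumberPart

section Main

variable {L E : Type} [Field L] [Field E] [Algebra L E]

theorem chi_ext {N : Subgroup Gal(E/L)} {χ χ' : N →* Multiplicative (ZMod 2)}
    (h : ∀ g, χ g = 1 ↔ χ' g = 1) : χ = χ' := by
  ext g : 1
  by_cases h1 : χ g = 1
  · rw [h1, (h g).1 h1]
  · exact two_el _ _ h1 (fun h2 => h1 ((h g).2 h2))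

/-- finiteness and lower bound for the number of quadratic characters -/
theorem main_count [CharZero E] [IsGalois L E] (N : Subgroup Gal(E/L))
    (hN : IsOpen (N : Set Gal(E/L))) (M : IntermediateField L E) [NumberField M]
    (hfix : ∀ (g : N) (x : M), (g : Gal(E/L)) (x : E) = x)
    (hmem : ∀ x : E, (∀ g ∈ N, (g : Gal(E/L)) x = x) → x ∈ M)
    (hev : ∀ (a : M) (y : E), a ≠ 0 → y ^ 2 = (a : E) → MZ294.EvenOut2 M a)
    (hsq : ∀ u : Mˣ, u ∈ SU (S2 M) → ∃ y : E, y ^ 2 = ((u : M) : E)) :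
    2 ^ (Nat.card (InfinitePlace M) + 1) ≤ numHom2 N := by
  classical
  -- finiteness
  obtain ⟨T, hT2, hT⟩ := exists_clTriv (S2 M)
  have hfin : Finite {χ : N →* Multiplicative (ZMod 2) // IsOpen (χ.ker : Set N)} := by
    have hidx0 : (powMonoidHom 2 : SU T →* SU T).range.FiniteIndex := ⟨index_ne_zero T⟩
    have hidx : Finite (SU T ⧸ (powMonoidHom 2 : SU T →* SU T).range) :=
      Subgroup.finite_quotient_of_finiteIndex
    have hk : ∀ χ : {χ : N →* Multiplicative (ZMod 2) // IsOpen (χ.ker : Set N)},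
        ∃ u : SU T, ∃ y : E, y ≠ 0 ∧ y ^ 2 = (((u : Mˣ) : M) : E) ∧
          ∀ g : N, χ.1 g = 1 ↔ (g : Gal(E/L)) y = y := by
      intro χ
      obtain ⟨y, hy0, hy⟩ := exists_y N hN χ.1 χ.2
      have h2 : y ^ 2 ∈ M := by
        refine hmem _ fun g hg => ?_
        rw [map_pow]
        by_cases h1 : χ.1 ⟨g, hg⟩ = 1
        · rw [(hy ⟨g, hg⟩).1 h1]
        · rw [(hy ⟨g, hg⟩).2 h1]
          ring
      have ha0 : (⟨y ^ 2, h2⟩ : M) ≠ 0 := by
        intro h
        exact pow_ne_zero 2 hy0 (congrArg Subtype.val h)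
      obtain ⟨b, u, hu, hab⟩ := exists_decomp T hT hT2 ⟨y ^ 2, h2⟩ ha0
        (hev ⟨y ^ 2, h2⟩ y ha0 rfl)
      have hb0 : ((b : M) : E) ≠ 0 := fun h => b.ne_zero (Subtype.ext h)
      have hab' : y ^ 2 = ((b : M) : E) ^ 2 * ((u : M) : E) := congrArg Subtype.val hab
      refine ⟨⟨u, hu⟩, y / ((b : M) : E), div_ne_zero hy0 hb0, ?_, fun g => ?_⟩
      · rw [div_pow, hab']
        field_simp
      · rw [map_div₀, hfix]
        constructor
        · intro h1
          rw [(hy g).1 h1]
        · intro h1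
          by_contra h3
          rw [(hy g).2 h3] at h1
          have h4 : -y = y := by
            have := congrArg (fun z => z * ((b : M) : E)) h1
            simpa [hb0] using this
          exact hy0 (neg_eq_self.1 h4)
    choose u y hy0 hy hyχ using hk
    refine Finite.of_injective
      (fun χ => (QuotientGroup.mk (u χ) : SU T ⧸ (powMonoidHom 2 : SU T →* SU T).range)) ?_
    intro χ χ' h
    obtain ⟨w, hw⟩ := (QuotientGroup.eq.1 h)
    have hw' : u χ' = u χ * w ^ 2 := by
      have : w ^ 2 = (u χ)⁻¹ * u χ' := hw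
      rw [this]
      group
    have h1 : (y χ') ^ 2 = (y χ * (((w : Mˣ) : M) : E)) ^ 2 := by
      rw [mul_pow, hy, hy, hw']
      simp
    apply Subtype.ext
    apply chi_ext
    intro g
    rw [hyχ, hyχ]
    have hw0 : (((w : Mˣ) : M) : E) ≠ 0 := fun h => (w : Mˣ).ne_zero (Subtype.ext h)
    rcases sq_eq_sq_iff_eq_or_eq_neg.1 h1 with h2 | h2
    · rw [h2, map_mul, hfix]
      constructor
      · intro h3
        rw [h3]
      · intro h3
        exact mul_right_cancel₀ hw0 h3
    · rw [h2, map_neg, map_mul, hfix]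
      constructor
      · intro h3
        rw [h3]
      · intro h3
        exact mul_right_cancel₀ hw0 (neg_injective h3)
  -- lower bound
  refine le_trans card_ge ?_
  rw [Subgroup.index_eq_card, numHom2]
  choose y hy using hsq
  have hy0 : ∀ u : SU (S2 M), y u u.2 ≠ 0 := by
    intro u h
    have h1 := hy u u.2
    rw [h, zero_pow two_ne_zero] at h1
    exact (u : Mˣ).ne_zero (Subtype.ext h1.symm)
  have hyN : ∀ u : SU (S2 M), ∀ g ∈ N, (g : Gal(E/L)) (y u u.2) = y u u.2 ∨
      (g : Gal(E/L)) (y u u.2) = - y u u.2 := by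
    intro u g hg
    apply sq_eq_sq_iff_eq_or_eq_neg.1
    rw [← map_pow, hy u u.2]
    exact hfix ⟨g, hg⟩ _
  have halg : Algebra.IsAlgebraic L E := inferInstance
  refine Nat.card_le_card_of_injective
    (fun q : SU (S2 M) ⧸ (powMonoidHom 2 : SU (S2 M) →* SU (S2 M)).range =>
      (⟨chi N (y q.out q.out.2) (hy0 q.out) (hyN q.out), chi_open N _ _ _⟩ :
        {χ : N →* Multiplicative (ZMod 2) // IsOpen (χ.ker : Set N)})) ?_
  intro q q' h
  have h1 : chi N (y q.out q.out.2) (hy0 q.out) (hyN q.out) =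
      chi N (y q'.out q'.out.2) (hy0 q'.out) (hyN q'.out) := congrArg Subtype.val h
  have hz : y q'.out q'.out.2 / y q.out q.out.2 ∈ M := by
    refine hmem _ fun g hg => ?_
    have h2 := chi_eq_one_iff N _ (hy0 q.out) (hyN q.out) ⟨g, hg⟩
    have h3 := chi_eq_one_iff N _ (hy0 q'.out) (hyN q'.out) ⟨g, hg⟩
    rw [h1, h3] at h2
    rw [map_div₀]
    rcases hyN q.out g hg with h4 | h4 <;> rcases hyN q'.out g hg with h5 | h5
    · rw [h4, h5]
    · exact absurd (h2.2 h4) (by
        intro h6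
        have h7 : y q'.out q'.out.2 = -y q'.out q'.out.2 := h6.symm.trans h5
        exact hy0 q'.out (self_eq_neg.1 h7))
    · exact absurd (h2.1 h5) (by
        intro h6
        have h7 : y q.out q.out.2 = -y q.out q.out.2 := h6.symm.trans h4
        exact hy0 q.out (self_eq_neg.1 h7))
    · rw [h4, h5, neg_div_neg_eq]
  have hz0 : (⟨_, hz⟩ : M) ≠ 0 := by
    intro h2
    exact div_ne_zero (hy0 q'.out) (hy0 q.out) (congrArg Subtype.val h2)
  have hz2 : (Units.mk0 (⟨_, hz⟩ : M) hz0) ^ 2 = (((q.out)⁻¹ * q'.out : SU (S2 M)) : Mˣ) := by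
    apply Units.ext
    rw [Units.val_pow_eq_pow_val, Units.val_mk0]
    apply Subtype.ext
    change (y q'.out q'.out.2 / y q.out q.out.2) ^ 2 =
      ((((((q.out)⁻¹ * q'.out : SU (S2 M)) : Mˣ) : M)) : E)
    rw [div_pow, hy, hy, Subgroup.coe_mul, Subgroup.coe_inv, Units.val_mul,
      Units.val_inv_eq_inv_val]
    push_cast
    rw [div_eq_inv_mul]
  have hzS : Units.mk0 (⟨_, hz⟩ : M) hz0 ∈ SU (S2 M) := by
    intro v hv
    have h2 := ((q.out)⁻¹ * q'.out : SU (S2 M)).2 v hv
    rw [← hz2, Units.val_pow_eq_pow_val, map_pow] at h2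
    exact (pow_eq_one_iff.1 h2).resolve_right two_ne_zero
  have h6 : (QuotientGroup.mk q.out : SU (S2 M) ⧸ (powMonoidHom 2 : SU (S2 M) →* SU (S2 M)).range) =
      QuotientGroup.mk q'.out := by
    refine QuotientGroup.eq.2 ⟨⟨_, hzS⟩, ?_⟩
    apply Subtype.ext
    exact hz2
  rwa [QuotientGroup.out_eq', QuotientGroup.out_eq'] at h6

/-- `L_∞ ⊆ M_∞` -/
theorem mem_Linf_of_mem {Ω : Type} [Field Ω] [Algebra L Ω] (M : Type) [Field M] [Algebra L M]
    [Algebra M Ω] [IsScalarTower L M Ω] {y : Ω} (hy : y ∈ Linf L Ω) : y ∈ Linf M Ω := by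
  have h1 : Linf L Ω ≤ (Linf M Ω).restrictScalars L := by
    refine sInf_le ?_
    intro a b ha hT hb
    exact kumClosed_Linf (L := M) a b ha hT hb
  exact h1 hy

theorem t_K4 (hK3 : StmK3) : StmK4 := by
  intro L Ω _ _ _ _ _ N hN
  have hG : IsGalois L (Linf L Ω) := isGalois_Linf L Ω
  have hc : CharZero Ω := charZero_of_injective_algebraMap (algebraMap L Ω).injective
  have hc2 : CharZero (Linf L Ω) := charZero_of_injective_algebraMap (algebraMap L _).injective
  have hNc : IsClosed (N : Set Gal((Linf L Ω)/L)) := Subgroup.isClosed_of_isOpen _ hN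
  have hfx : (IntermediateField.fixedField N).fixingSubgroup = N :=
    InfiniteGalois.fixingSubgroup_fixedField (⟨N, hNc⟩ : ClosedSubgroup Gal((Linf L Ω)/L))
  have hfd : FiniteDimensional L (IntermediateField.fixedField N) := by
    rw [← InfiniteGalois.isOpen_iff_finite]
    rw [hfx]
    exact hN
  have hnf : NumberField (IntermediateField.fixedField N) := by
    have h1 : CharZero (IntermediateField.fixedField N) :=
      charZero_of_injective_algebraMap (algebraMap L _).injective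
    have h2 : FiniteDimensional ℚ (IntermediateField.fixedField N) :=
      FiniteDimensional.trans ℚ L _
    exact ⟨⟩
  have hac : IsAlgClosure (IntermediateField.fixedField N) Ω := by
    have h1 : Algebra.IsAlgebraic L Ω := IsAlgClosure.isAlgebraic
    have h2 : IsAlgClosed Ω := IsAlgClosure.isAlgClosed L
    exact ⟨h2, Algebra.IsAlgebraic.tower_top (K := L) _⟩
  refine main_count N hN (IntermediateField.fixedField N) ?_ ?_ ?_ ?_
  · intro g x
    have := x.2
    rw [IntermediateField.mem_fixedField_iff] at this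
    exact this g g.2
  · intro x hx
    rw [IntermediateField.mem_fixedField_iff]
    exact hx
  · intro a y ha hy
    refine hK3 (IntermediateField.fixedField N) Ω a (y : Ω) ha ?_ ?_
    · exact mem_Linf_of_mem (L := L) (IntermediateField.fixedField N) y.2
    · have := congrArg Subtype.val hy
      exact this
  · intro u hu
    have hT := twoUnit_of_SU (Ω := Ω) u hu
    obtain ⟨y, hy⟩ := @IsAlgClosed.exists_pow_nat_eq Ω _ (IsAlgClosure.isAlgClosed L)
      (algebraMap (IntermediateField.fixedField N) Ω u) 2 (by norm_num)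
    refine ⟨⟨y, kumClosed_Linf _ y ?_ hT hy⟩, Subtype.ext hy⟩
    exact ((u : IntermediateField.fixedField N) : Linf L Ω).2

end Main

end Pool.Agent.W368.MZK4
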